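import Mathlib
import Pool.Agent.K.MP_85fe51_lc.C2

set_option autoImplicit false

namespace Pool.Agent.Results.MP_85fe51_lc.AbelianByP

/-- Let `p` be a prime and `N` a normal subgroup of order prime to `p` of a finite group `G` with
`G ⧸ N` a `p`-group, and let all `p`-th powers and all commutators of `G` commute with every element
of `N`. A `G`-program of length `L` that accepts exactly one input `y` of length `n ≥ n0` (for `y`
all true this is `AND`) has `n ^ (B + 1) ≤ L ^ B`. -/
theorem result :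
    ∀ (p : ℕ), p.Prime → ∀ (G : Type) [Group G] [Finite G] (N : Subgroup G) [N.Normal],
      Nat.Coprime (Nat.card N) p → IsPGroup p (G ⧸ N) →
      (∀ g : G, ∀ c ∈ N, g ^ p * c = c * g ^ p) →
      (∀ g h : G, ∀ c ∈ N, g * h * g⁻¹ * h⁻¹ * c = c * (g * h * g⁻¹ * h⁻¹)) →
      ∃ B n0 : ℕ, 1 ≤ B ∧ ∀ (n L : ℕ) (var : Fin L → Fin n) (a b : Fin L → G) (A : Set G)
        (y : Fin n → Bool), n0 ≤ n →
        (∀ x : Fin n → Bool, x = y ↔
          (List.ofFn (fun j : Fin L => if x (var j) then a j else b j)).prod ∈ A) →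
        n ^ (B + 1) ≤ L ^ B := by
  intro p hp G _ _ N _ hN hP hpow hcom
  have : Fact p.Prime := ⟨hp⟩
  exact Pool.Agent.P.MP_85fe51_lc.OD.main_of_core (Pool.Agent.P.MP_85fe51_lc.OD.core p) G N hN hP
    hpow hcom

end Pool.Agent.Results.MP_85fe51_lc.AbelianByP
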