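import Mathlib
import Pool.Agent.K.MP_85fe51_lc.C3

set_option autoImplicit false

namespace Pool.Agent.Results.MP_85fe51_lc.AndLowerBound

open Pool.Agent.P.MP_85fe51_lc

/-- Over a finite solvable group, a program on `n` inputs of length at most
`c n log n / log log n` isolates no input; in particular it does not compute `AND` of `n` bits. -/
theorem result :
    ∀ (G : Type) [Group G] [Finite G], Group.IsSolvable G →
      ∃ c : ℝ, 0 < c ∧ ∃ n₀ : ℕ, ∀ n : ℕ, n₀ ≤ n →
        ∀ (L : ℕ) (var : Fin L → Fin n) (a b : Fin L → G),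
          (L : ℝ) ≤ c * n * Real.log n / Real.log (Real.log n) →
          (∀ y : Fin n → Bool, ∃ x : Fin n → Bool, x ≠ y ∧
            (List.ofFn (fun j : Fin L => if x (var j) then a j else b j)).prod =
            (List.ofFn (fun j : Fin L => if y (var j) then a j else b j)).prod) ∧
          ¬ ∃ A : Set G, ∀ x : Fin n → Bool,
            ((∀ i, x i = true) ↔
              (List.ofFn (fun j : Fin L => if x (var j) then a j else b j)).prod ∈ A) := by
  intro G _ _ hG
  obtain ⟨A, hA⟩ := collision G hG
  obtain ⟨c, hc, n₀, hn₀⟩ := asymptotic A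
  refine ⟨c, hc, n₀, fun n hn L var a b hL => ⟨fun y => hA n L var a b y (hn₀ n hn L hL), ?_⟩⟩
  rintro ⟨B, hB⟩
  obtain ⟨x, hx, hP⟩ := hA n L var a b (fun _ => true) (hn₀ n hn L hL)
  apply hx
  funext i
  refine (hB x).2 ?_ i
  rw [hP]
  exact (hB (fun _ => true)).1 (fun _ => rfl)

end Pool.Agent.Results.MP_85fe51_lc.AndLowerBound
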