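import Mathlib
import Pool.Agent.K.MP_85fe51_lc.C4

set_option autoImplicit false

namespace Pool.Agent.Results.MP_85fe51_lc.DihedralQuadratic

/-- Let `N` be a normal subgroup of odd order of a finite group `G` with `G ⧸ N` a 2-group, and let
every square of `G` commute with every element of `N`. A `G`-program of length `L` that accepts
exactly one input `y` of length `n` (for `y` all true this is `AND`) has
`n ^ 2 ≤ C (L + 1) (log₂ (L + 1) + 1) ^ 16`. -/
theorem result :
    ∀ (G : Type) [Group G] [Finite G] (N : Subgroup G) [N.Normal],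
      Odd (Nat.card N) → IsPGroup 2 (G ⧸ N) → (∀ g : G, ∀ c ∈ N, g * g * c = c * (g * g)) →
      ∃ C : ℕ, ∀ (n L : ℕ) (var : Fin L → Fin n) (a b : Fin L → G) (A : Set G)
        (y : Fin n → Bool),
        (∀ x : Fin n → Bool, x = y ↔
          (List.ofFn (fun j : Fin L => if x (var j) then a j else b j)).prod ∈ A) →
        n ^ 2 ≤ C * (L + 1) * (Nat.log 2 (L + 1) + 1) ^ 16 := by
  intro G _ _ N _ hodd h2 hsq
  exact Pool.Agent.P.MP_85fe51_lc.DA.main G N hodd h2 hsq

end Pool.Agent.Results.MP_85fe51_lc.DihedralQuadratic
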